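import Mathlib

set_option autoImplicit false

open Finset

namespace Pool.Agent.Lib.MP_de5887_an.Low

variable {ι M : Type} [Fintype M]

/-- The polynomial with coefficient `F m` at the monomial `mon m`. -/
def val (mon : M → Finset ι) (F : M → ℝ) (x : ι → ℝ) : ℝ := ∑ m, F m * ∏ i ∈ mon m, x i

/-- The sum of the `q`-th powers of the coefficients. -/
noncomputable def pw (q : ℝ) (F : M → ℝ) : ℝ := ∑ m, |F m| ^ q

/-- Disjoint spectra. -/
def Dj (F G : M → ℝ) : Prop := ∀ m, F m * G m = 0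

lemma val_add (mon : M → Finset ι) (F G : M → ℝ) (x : ι → ℝ) :
    val mon (F + G) x = val mon F x + val mon G x := by
  simp only [val, Pi.add_apply, add_mul, sum_add_distrib]

lemma pw_add {q : ℝ} (hq : 0 < q) {F G : M → ℝ} (h : Dj F G) :
    pw q (F + G) = pw q F + pw q G := by
  unfold pw
  rw [← sum_add_distrib]
  refine sum_congr rfl fun m _ => ?_
  rcases mul_eq_zero.1 (h m) with h0 | h0 <;> simp [h0, Real.zero_rpow hq.ne']

omit [Fintype M] in
lemma Dj.symm {F G : M → ℝ} (h : Dj F G) : Dj G F := fun m => by rw [mul_comm]; exact h m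

omit [Fintype M] in
lemma Dj.addl {F G H : M → ℝ} (h : Dj F H) (h' : Dj G H) : Dj (F + G) H := fun m => by
  rw [Pi.add_apply, add_mul, h m, h' m, add_zero]

omit [Fintype M] in
lemma Dj.addr {F G H : M → ℝ} (h : Dj H F) (h' : Dj H G) : Dj H (F + G) :=
  (h.symm.addl h'.symm).symm

/-- The seven pairs of blocks. -/
def pr : Fin 7 → Fin 5 × Fin 5 := ![(0, 1), (0, 2), (1, 2), (0, 3), (1, 3), (0, 4), (1, 4)]

/-- The new part of a monomial. -/
def nw (k : Fin 7 × Bool × Bool) : Finset (Fin 5 × Bool) :=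
  {((pr k.1).1, k.2.1), ((pr k.1).2, k.2.2)}

lemma nw_inj : Function.Injective nw := by decide

lemma pr_ne (p : Fin 7) (u v : Bool) : ((pr p).1, u) ≠ ((pr p).2, v) := by
  revert p u v; decide

/-- The monomials after two more levels. -/
def ext (mon : M → Finset ι) (k : (Fin 7 × Bool × Bool) × M) : Finset ((Fin 5 × Bool) ⊕ ι) :=
  (nw k.1).disjSum (mon k.2)

omit [Fintype M] in
lemma ext_inj {mon : M → Finset ι} (h : Function.Injective mon) : Function.Injective (ext mon) := by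
  rintro ⟨k, m⟩ ⟨k', m'⟩ e
  obtain ⟨h1, h2⟩ := disjSum_inj.1 e
  exact Prod.ext (nw_inj h1) (h h2)

omit [Fintype M] in
lemma ext_card {mon : M → Finset ι} {D : ℕ} (h : ∀ m, (mon m).card = D) (k) :
    (ext mon k).card = D + 2 := by
  unfold ext nw
  rw [card_disjSum, h, card_pair (pr_ne _ _ _), add_comm]

/-- The product of two linear forms in the blocks of the pair `p` with `F`. -/
def tm (p : Fin 7) (α β : Bool → ℝ) (F : M → ℝ) (k : (Fin 7 × Bool × Bool) × M) : ℝ :=
  if k.1.1 = p then α k.1.2.1 * β k.1.2.2 * F k.2 else 0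

/-- A linear form in the block `b`. -/
def lf (b : Fin 5) (α : Bool → ℝ) (x : (Fin 5 × Bool) ⊕ ι → ℝ) : ℝ :=
  α true * x (.inl (b, true)) + α false * x (.inl (b, false))

lemma val_tm (mon : M → Finset ι) (p : Fin 7) (α β : Bool → ℝ) (F : M → ℝ)
    (x : (Fin 5 × Bool) ⊕ ι → ℝ) : val (ext mon) (tm p α β F) x =
      lf (pr p).1 α x * lf (pr p).2 β x * val mon F (x ∘ .inr) := by
  unfold val
  rw [Fintype.sum_prod_type, Fintype.sum_prod_type, sum_eq_single p (fun b _ hb => by simp [tm, hb])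
    (by simp)]
  simp only [tm, ext, nw, lf, if_true, prod_disjSum, prod_pair (pr_ne _ _ _), Fintype.sum_prod_type,
    Fintype.sum_bool, mul_sum, ← sum_add_distrib, Function.comp]
  exact sum_congr rfl fun m _ => by ring

lemma pw_tm {q : ℝ} (hq : 0 < q) (p : Fin 7) (α β : Bool → ℝ) (F : M → ℝ) :
    pw q (tm p α β F) = pw q α * pw q β * pw q F := by
  unfold pw
  rw [Fintype.sum_prod_type, Fintype.sum_prod_type,
    sum_eq_single p (fun b _ hb => by simp [tm, hb, Real.zero_rpow hq.ne']) (by simp)]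
  simp only [tm, if_true, Fintype.sum_prod_type, Fintype.sum_bool, mul_sum, ← sum_add_distrib,
    abs_mul, Real.mul_rpow (mul_nonneg (abs_nonneg _) (abs_nonneg _)) (abs_nonneg _),
    Real.mul_rpow (abs_nonneg _) (abs_nonneg _)]
  exact sum_congr rfl fun m _ => by ring

omit [Fintype M] in
lemma dj_ne {p p' : Fin 7} (h : p ≠ p') {α β α' β' : Bool → ℝ} {F G : M → ℝ} :
    Dj (tm p α β F) (tm p' α' β' G) := fun k => by
  unfold tm
  split_ifs with h1 h2
  · exact absurd (h1.symm.trans h2) h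
  all_goals simp

omit [Fintype M] in
lemma dj_tm {F G : M → ℝ} (h : Dj F G) {p : Fin 7} {α β α' β' : Bool → ℝ} :
    Dj (tm p α β F) (tm p α' β' G) := fun k => by
  unfold tm
  split_ifs
  · linear_combination (α k.1.2.1 * β k.1.2.2 * α' k.1.2.1 * β' k.1.2.2) * h k.2
  · simp

omit [Fintype M] in
lemma dj_snd {β β' : Bool → ℝ} (h : Dj β β') {p : Fin 7} {α α' : Bool → ℝ} {F G : M → ℝ} :
    Dj (tm p α β F) (tm p α' β' G) := fun k => by
  unfold tm
  split_ifs
  · linear_combination (α k.1.2.1 * F k.2 * α' k.1.2.1 * G k.2) * h k.1.2.2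
  · simp

/-- The literal `(x + x') / 2`. -/
noncomputable def l0 : Bool → ℝ := fun _ => 1 / 2

/-- The literal `(x - x') / 2`. -/
noncomputable def l1 : Bool → ℝ := fun u => if u then 1 / 2 else -(1 / 2)

/-- One variable of a block. -/
def vr (w : Bool) : Bool → ℝ := fun u => if u = w then 1 else 0

lemma pw_l0 (q : ℝ) : pw q l0 = 2 * (1 / 2) ^ q := by
  simp only [pw, l0, Fintype.sum_bool, abs_of_pos (show (0 : ℝ) < 1 / 2 by norm_num)]
  ring

lemma pw_l1 (q : ℝ) : pw q l1 = 2 * (1 / 2) ^ q := by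
  simp only [pw, l1, Fintype.sum_bool, if_true, Bool.false_eq_true, if_false, abs_neg,
    abs_of_pos (show (0 : ℝ) < 1 / 2 by norm_num)]
  ring

lemma pw_vr {q : ℝ} (hq : 0 < q) (w : Bool) : pw q (vr w) = 1 := by
  cases w <;> simp [pw, vr, Real.zero_rpow hq.ne']

lemma dj_vr : Dj (vr false) (vr true) := fun u => by cases u <;> simp [vr]

lemma lit {s t : ℝ} (hs : s = 1 ∨ s = -1) (ht : t = 1 ∨ t = -1) :
    (|l0 true * s + l0 false * t| = 1 ∧ l1 true * s + l1 false * t = 0) ∨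
      (l0 true * s + l0 false * t = 0 ∧ |l1 true * s + l1 false * t| = 1) := by
  rcases hs with rfl | rfl <;> rcases ht with rfl | rfl <;> norm_num [l0, l1]

lemma lf_cases {x : (Fin 5 × Bool) ⊕ ι → ℝ} (hx : ∀ i, x i = 1 ∨ x i = -1) (b : Fin 5) :
    (|lf b l0 x| = 1 ∧ lf b l1 x = 0) ∨ (lf b l0 x = 0 ∧ |lf b l1 x| = 1) := lit (hx _) (hx _)

lemma lf_vr {x : (Fin 5 × Bool) ⊕ ι → ℝ} (hx : ∀ i, x i = 1 ∨ x i = -1) (b : Fin 5) (w : Bool) :
    |lf b (vr w) x| = 1 := by
  cases w <;> simp only [lf, vr] <;> rcases hx (.inl (b, true)) with h | h <;>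
    rcases hx (.inl (b, false)) with h' | h' <;> simp [h, h']

end Pool.Agent.Lib.MP_de5887_an.Low
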