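import Pool.Agent.Lib.MP_de5887_an.Low.Basic

set_option autoImplicit false

open Finset

namespace Pool.Agent.Lib.MP_de5887_an.Low

/-- A system of six `D`-homogeneous polynomials with given power sums. -/
def Good (q : ℝ) (D : ℕ) (sA sB sP sQ sN : ℝ) : Prop :=
  ∃ (ι M : Type) (_ : Fintype ι) (_ : Fintype M) (mon : M → Finset ι) (A B P Q N N' : M → ℝ),
    Function.Injective mon ∧ (∀ m, (mon m).card = D) ∧
    (∀ x : ι → ℝ, (∀ i, x i = 1 ∨ x i = -1) → |val mon A x| + |val mon B x| ≤ 1 ∧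
      |val mon A x| + |val mon P x| ≤ 1 ∧ |val mon B x| + |val mon Q x| ≤ 1 ∧
      |val mon N x| ≤ 1 ∧ |val mon N' x| ≤ 1) ∧
    (Dj A B ∧ Dj A Q ∧ Dj B P ∧ Dj N A ∧ Dj N B ∧ Dj N Q ∧ Dj N' A ∧ Dj N' Q ∧ Dj N N') ∧
    pw q A = sA ∧ pw q B = sB ∧ pw q P = sP ∧ pw q Q = sQ ∧ pw q N = sN ∧ pw q N' = sN

lemma pr0 : pr 0 = (0, 1) := rfl
lemma pr1 : pr 1 = (0, 2) := rfl
lemma pr2 : pr 2 = (1, 2) := rfl
lemma pr3 : pr 3 = (0, 3) := rfl
lemma pr4 : pr 4 = (1, 3) := rfl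
lemma pr5 : pr 5 = (0, 4) := rfl
lemma pr6 : pr 6 = (1, 4) := rfl

theorem good_step {q : ℝ} (hq : 0 < q) {D : ℕ} {sA sB sP sQ sN : ℝ} (h : Good q D sA sB sP sQ sN)
    {l : ℝ} (hl : l = 2 * (1 / 2) ^ q) :
    Good q (D + 2) (l ^ 2 * (2 * sA + sQ + sN)) (l ^ 2 * (sP + 2 * sB)) (l ^ 2 * (2 * sP + sB))
      (l ^ 2 * (sA + 2 * sQ + sN)) (l ^ 2 * (4 * sN)) := by
  obtain ⟨ι, M, _, _, mon, A, B, P, Q, N, N', hi, hc, hs, ⟨d1, d2, d3, d4, d5, d6, d7, d8, d9⟩,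
    rfl, rfl, rfl, rfl, rfl, e⟩ := h
  have d1' := d1.symm
  have d2' := d2.symm
  have d3' := d3.symm
  have d4' := d4.symm
  have d5' := d5.symm
  have d6' := d6.symm
  have d7' := d7.symm
  have d8' := d8.symm
  have d9' := d9.symm
  refine ⟨(Fin 5 × Bool) ⊕ ι, (Fin 7 × Bool × Bool) × M, inferInstance, inferInstance, ext mon,
    tm 2 l1 l1 A + tm 2 l1 l0 Q + tm 0 l0 l0 A + tm 0 l1 l0 N,
    tm 1 l0 l1 P + tm 1 l0 l0 B + tm 0 l1 l1 B,
    tm 0 l0 l0 P + tm 2 l1 l1 P + tm 2 l1 l0 B,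
    tm 1 l0 l1 A + tm 1 l0 l0 Q + tm 0 l1 l1 Q + tm 0 l1 l0 N',
    tm 3 l0 l0 N + tm 3 l1 l0 N' + tm 4 l0 l1 N + tm 4 l1 l1 N',
    tm 5 l0 l0 N + tm 5 l1 l0 N' + tm 6 l0 l1 N + tm 6 l1 l1 N',
    ext_inj hi, ext_card hc, fun x hx => ?_, ?_, ?_⟩
  · obtain ⟨h1, h2, h3, h4, h5⟩ := hs (x ∘ .inr) fun i => hx _
    simp only [val_add, val_tm, pr0, pr1, pr2, pr3, pr4, pr5, pr6]
    refine ⟨?_, ?_, ?_, ?_, ?_⟩ <;> rcases lf_cases hx 0 with ⟨a0, a1⟩ | ⟨a0, a1⟩ <;>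
      rcases lf_cases hx 1 with ⟨b0, b1⟩ | ⟨b0, b1⟩ <;>
      rcases lf_cases hx 2 with ⟨c0, c1⟩ | ⟨c0, c1⟩ <;>
      rcases lf_cases hx 3 with ⟨e0, e1⟩ | ⟨e0, e1⟩ <;>
      rcases lf_cases hx 4 with ⟨g0, g1⟩ | ⟨g0, g1⟩ <;>
      simp only [a0, a1, b0, b1, c0, c1, e0, e1, g0, g1, mul_zero, zero_mul, add_zero, zero_add,
        abs_mul, one_mul, abs_zero] <;> linarith
  · refine ⟨?_, ?_, ?_, ?_, ?_, ?_, ?_, ?_, ?_⟩ <;>
      repeat' first
        | with_reducible apply Dj.addl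
        | with_reducible apply Dj.addr
        | exact dj_ne (by decide)
        | exact dj_tm ‹_›
  · refine ⟨?_, ?_, ?_, ?_, ?_, ?_⟩ <;> (repeat rw [pw_add hq]) <;>
      first
        | (simp only [pw_tm hq, pw_l0, pw_l1, ← hl, e]; ring)
        | repeat' first
          | with_reducible apply Dj.addl
          | with_reducible apply Dj.addr
          | exact dj_ne (by decide)
          | exact dj_tm ‹_›

theorem good_base {q : ℝ} (hq : 0 < q) {l : ℝ} (hl : l = 2 * (1 / 2) ^ q) :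
    Good q 2 (2 * l ^ 2) (l ^ 2) (2 * l ^ 2) (l ^ 2 + l) (2 * l) := by
  have hv : ∀ x : Empty → ℝ, val (fun _ : Unit => (∅ : Finset Empty)) (fun _ => 1) x = 1 :=
    fun x => by simp [val]
  have hp : pw q (fun _ : Unit => (1 : ℝ)) = 1 := by simp [pw]
  refine ⟨(Fin 5 × Bool) ⊕ Empty, (Fin 7 × Bool × Bool) × Unit, inferInstance, inferInstance,
    ext fun _ => ∅,
    tm 2 l1 l0 (fun _ => 1) + tm 0 l1 l0 (fun _ => 1), tm 1 l0 l1 (fun _ => 1),
    tm 0 l0 l0 (fun _ => 1) + tm 2 l1 l1 (fun _ => 1),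
    tm 1 l0 l0 (fun _ => 1) + tm 3 l1 (vr false) (fun _ => 1),
    tm 4 l0 (vr false) (fun _ => 1) + tm 4 l1 (vr true) (fun _ => 1),
    tm 6 l0 (vr false) (fun _ => 1) + tm 6 l1 (vr true) (fun _ => 1),
    ext_inj fun _ _ _ => rfl, ext_card (D := 0) fun _ => rfl, fun x hx => ?_, ?_, ?_⟩
  · simp only [val_add, val_tm, pr0, pr1, pr2, pr3, pr4, pr6, hv]
    refine ⟨?_, ?_, ?_, ?_, ?_⟩ <;> rcases lf_cases hx 0 with ⟨a0, a1⟩ | ⟨a0, a1⟩ <;>
      rcases lf_cases hx 1 with ⟨b0, b1⟩ | ⟨b0, b1⟩ <;>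
      rcases lf_cases hx 2 with ⟨c0, c1⟩ | ⟨c0, c1⟩ <;>
      simp only [a0, a1, b0, b1, c0, c1, lf_vr hx, mul_zero, zero_mul, add_zero, zero_add,
        abs_mul, mul_one, abs_zero, le_refl, zero_le_one]
  · refine ⟨?_, ?_, ?_, ?_, ?_, ?_, ?_, ?_, ?_⟩ <;>
      repeat' first
        | with_reducible apply Dj.addl
        | with_reducible apply Dj.addr
        | exact dj_ne (by decide)
  · refine ⟨?_, ?_, ?_, ?_, ?_, ?_⟩ <;> (repeat rw [pw_add hq]) <;>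
      first
        | (simp only [pw_tm hq, pw_l0, pw_l1, pw_vr hq, ← hl, hp]; ring)
        | exact dj_ne (by decide)
        | exact dj_snd dj_vr

theorem good_all {q : ℝ} (hq : 0 < q) {l : ℝ} (hl : l = 2 * (1 / 2) ^ q) (i : ℕ) :
    Good q (2 * i + 2)
      (l ^ (2 * i + 1) * ((3 ^ (i + 1) + 1) / 2 * l + (4 ^ (i + 1) - 3 ^ (i + 1) - 1) / 2))
      (l ^ (2 * i + 1) * ((3 ^ (i + 1) - 1) / 2 * l))
      (l ^ (2 * i + 1) * ((3 ^ (i + 1) + 1) / 2 * l))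
      (l ^ (2 * i + 1) * ((3 ^ (i + 1) - 1) / 2 * l + (4 ^ (i + 1) - 3 ^ (i + 1) + 1) / 2))
      (l ^ (2 * i + 1) * (4 ^ (i + 1) / 2)) := by
  induction i with
  | zero => convert good_base hq hl using 1 <;> ring
  | succ i ih => convert good_step hq ih hl using 1 <;> ring

/-- One `D`-homogeneous polynomial bounded by one, with power sum `s`. -/
def One (q : ℝ) (D : ℕ) (s : ℝ) : Prop :=
  ∃ (ι M : Type) (_ : Fintype ι) (_ : Fintype M) (mon : M → Finset ι) (F : M → ℝ),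
    Function.Injective mon ∧ (∀ m, (mon m).card = D) ∧
    (∀ x : ι → ℝ, (∀ i, x i = 1 ∨ x i = -1) → |val mon F x| ≤ 1) ∧ pw q F = s

theorem Good.one {q : ℝ} (hq : 0 < q) {D : ℕ} {sA sB sP sQ sN : ℝ}
    (h : Good q D sA sB sP sQ sN) : One q D (sA + sB) := by
  obtain ⟨ι, M, _, _, mon, A, B, P, Q, N, N', hi, hc, hs, ⟨d1, -⟩, rfl, rfl, -⟩ := h
  exact ⟨ι, M, inferInstance, inferInstance, mon, A + B, hi, hc,
    fun x hx => by rw [val_add]; exact (abs_add_le _ _).trans (hs x hx).1, pw_add hq d1⟩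

theorem One.step {q : ℝ} {D : ℕ} (hD : 1 ≤ D) {s : ℝ} (h : One q D s) :
    One q (D + 1) (2 * (2 * (1 / 2) ^ q) * s) := by
  obtain ⟨ι, M, _, _, mon, F, hi, hc, hs, rfl⟩ := h
  refine ⟨Bool ⊕ Bool × ι, Bool × Bool × M, inferInstance, inferInstance,
    fun k => ({k.2.1} : Finset Bool).disjSum ((mon k.2.2).map (.sectR k.1 ι)),
    fun k => (if k.1 then l1 else l0) k.2.1 * F k.2.2, ?_, fun k => ?_, fun x hx => ?_, ?_⟩
  · rintro ⟨σ, u, m⟩ ⟨σ', u', m'⟩ e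
    obtain ⟨h1, h2⟩ := disjSum_inj.1 e
    obtain ⟨i, hm⟩ := card_pos.1 (hD.trans_eq (hc m).symm)
    have h3 : (σ, i) ∈ (mon m').map (.sectR σ' ι) := h2 ▸ mem_map_of_mem _ hm
    obtain ⟨j, -, hj⟩ := mem_map.1 h3
    obtain rfl : σ' = σ := (Prod.ext_iff.1 hj).1
    obtain rfl : u = u' := singleton_inj.1 h1
    obtain rfl : m = m' := hi (map_injective _ h2)
    rfl
  · rw [card_disjSum, card_map, hc, card_singleton, add_comm]
  · have e : val (fun k : Bool × Bool × M =>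
        ({k.2.1} : Finset Bool).disjSum ((mon k.2.2).map (.sectR k.1 ι)))
        (fun k => (if k.1 then l1 else l0) k.2.1 * F k.2.2) x =
        (l1 true * x (.inl true) + l1 false * x (.inl false)) * val mon F (fun i => x (.inr (true, i))) +
        (l0 true * x (.inl true) + l0 false * x (.inl false)) *
          val mon F (fun i => x (.inr (false, i))) := by
      simp only [val, Fintype.sum_prod_type, Fintype.sum_bool, prod_disjSum, prod_singleton, prod_map,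
        Function.Embedding.sectR_apply, if_true, Bool.false_eq_true, if_false, mul_sum,
        ← sum_add_distrib]
      exact sum_congr rfl fun m _ => by ring
    rw [e]
    rcases lit (hx (.inl true)) (hx (.inl false)) with ⟨a0, a1⟩ | ⟨a0, a1⟩ <;>
      simp only [a0, a1, zero_mul, add_zero, zero_add, abs_mul, one_mul] <;>
      exact hs _ fun i => hx _
  · have e0 := pw_l0 q
    have e1 := pw_l1 q
    simp only [pw, Fintype.sum_prod_type, Fintype.sum_bool, if_true, Bool.false_eq_true, if_false,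
      abs_mul, Real.mul_rpow (abs_nonneg _) (abs_nonneg _), ← mul_sum] at e0 e1 ⊢
    linear_combination (∑ m, |F m| ^ q) * (e0 + e1)

theorem one_all {q : ℝ} (hq : 0 < q) {l : ℝ} (hl : l = 2 * (1 / 2) ^ q) (i k : ℕ) :
    One q (2 * i + 2 + k) ((2 * l) ^ k *
      (l ^ (2 * i + 1) * (3 ^ (i + 1) * l + (4 ^ (i + 1) - 3 ^ (i + 1) - 1) / 2))) := by
  induction k with
  | zero => convert (good_all hq hl i).one hq using 1; ring
  | succ k ih =>
    have h := ih.step (by omega)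
    rw [← hl, add_assoc] at h
    convert h using 1
    ring

theorem One.out {q : ℝ} (hq : 0 < q) {D : ℕ} {s : ℝ} (h : One q D s) :
    ∃ (n : ℕ) (a : Finset (Fin n) → ℝ), (∀ x : Fin n → ℝ, (∀ i, x i = 1 ∨ x i = -1) →
      |∑ S ∈ (univ : Finset (Fin n)).powersetCard D, a S * ∏ i ∈ S, x i| ≤ 1) ∧
      ∑ S ∈ (univ : Finset (Fin n)).powersetCard D, |a S| ^ q = s := by
  obtain ⟨ι, M, _, _, mon, F, hi, hc, hs, rfl⟩ := h
  let e := Fintype.equivFin ι
  have hj : Function.Injective fun m => (mon m).map e.toEmbedding := (map_injective _).comp hi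
  have key : ∀ φ : Finset (Fin (Fintype.card ι)) → ℝ → ℝ, (∀ T, φ T 0 = 0) →
      ∑ T ∈ univ.powersetCard D, φ T (Function.extend (fun m => (mon m).map e.toEmbedding) F 0 T) =
        ∑ m, φ ((mon m).map e.toEmbedding) (F m) := fun φ hφ => by
    classical
    refine (sum_of_injOn (fun m => (mon m).map e.toEmbedding) hj.injOn (fun m _ => ?_)
      (fun T _ hT => ?_) fun m _ => by rw [hj.extend_apply]).symm
    · simp [hc]
    · rw [Function.extend_apply' _ _ _ fun ⟨m, hm⟩ => hT ⟨m, by simp, hm⟩]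
      exact hφ T
  refine ⟨_, Function.extend (fun m => (mon m).map e.toEmbedding) F 0, fun x hx => ?_, ?_⟩
  · rw [key (fun T c => c * ∏ i ∈ T, x i) fun T => zero_mul _]
    simp only [prod_map]
    exact hs (fun i => x (e i)) fun i => hx _
  · exact key (fun _ c => |c| ^ q) fun _ => by simp [Real.zero_rpow hq.ne']

end Pool.Agent.Lib.MP_de5887_an.Low
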